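import Mathlib
import Pool.Agent.W593.IR.Stm

/-!
# The critical inequality with constant two for two-point variables
-/

set_option autoImplicit false

namespace Pool.Agent.W348.IR

open Finset Pool.Agent.W890.SF Pool.Agent.W593.IR

/-- the scalar part of the argument -/
theorem scal (h4 : S_RQ) (h5 : S_LANT) {x U W G G' : ℝ} (hx : 0 < x) (hU : 0 < U) (hW : 0 < W)
    (hW1 : W ≤ 1) (hG : 0 < G) (hGx : x ≤ G') (hGW : G' ≤ G + x * W)
    (i1 : 2 * x < G / U → (G / U) * (1 - x / (G / U)) ^ ((G / U) / x) ≤ G)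
    (i2 : (G' / W) * (1 - x / (G' / W)) ^ ((G' / W - x) / x) ≤ G') : 1 - W ≤ 2 * U := by
  rcases le_or_gt (G / U) (2 * x) with hg | hg
  · rw [div_le_iff₀ hU] at hg
    have h1 : x * (1 - W) ≤ x * (2 * U) := by nlinarith
    exact le_of_mul_le_mul_left h1 hx
  · have j1 := i1 hg
    have hG' : 0 < G' := lt_of_lt_of_le hx hGx
    obtain ⟨g, hgd⟩ : ∃ g, g = G / U := ⟨_, rfl⟩
    obtain ⟨g', hgd'⟩ : ∃ g', g' = G' / W := ⟨_, rfl⟩
    obtain ⟨h, hhd⟩ : ∃ h, h = x + G / W := ⟨_, rfl⟩
    rw [← hgd] at hg j1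
    rw [← hgd'] at i2
    have hUg : U = G / g := by rw [hgd]; field_simp
    have hg0 : 0 < g := by linarith
    have hg'x : x ≤ g' := by
      rw [hgd', le_div_iff₀ hW]
      nlinarith
    have hg'0 : 0 < g' := by linarith
    have hg'h : g' ≤ h := by
      rw [hgd', hhd, div_le_iff₀ hW]
      have : (x + G / W) * W = x * W + G := by field_simp
      rw [this]; linarith
    have hhx : h - x = G / W := by rw [hhd]; ring
    have hhx0 : 0 < h - x := by rw [hhx]; positivity
    have hh0 : 0 < h := by linarith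
    have hWh : W = G / (h - x) := by rw [hhx]; field_simp
    -- lower bound for `W`
    have hWb : (1 - x / h) ^ ((h - x) / x) ≤ W := by
      have e1 : (1 - x / g') ^ ((g' - x) / x) ≤ W := by
        have e2 : G' = g' * W := by rw [hgd']; field_simp
        rw [e2] at i2
        exact le_of_mul_le_mul_left i2 hg'0
      have e3 := h5 (g' / x) (h / x) (by rw [le_div_iff₀ hx]; linarith)
        (div_le_div_of_nonneg_right hg'h hx.le)
      rw [one_div_div, one_div_div] at e3
      have e4 : h / x - 1 = (h - x) / x := by field_simp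
      have e5 : g' / x - 1 = (g' - x) / x := by field_simp
      rw [e4, e5] at e3
      exact e3.trans e1
    -- the claim
    obtain ⟨H, hHd⟩ : ∃ H, H = max g h := ⟨_, rfl⟩
    have hHg : g ≤ H := by rw [hHd]; exact le_max_left _ _
    have hHh : h ≤ H := by rw [hHd]; exact le_max_right _ _
    have hH0 : 0 < H := by linarith
    have hHx : 0 < H - x := by linarith
    have hcl : (H - x) * (1 - x / H) ^ ((H - x) / x) ≤ G := by
      rcases le_total g h with hgh | hgh
      · have hHe : H = h := by rw [hHd]; exact max_eq_right hgh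
        rw [hHe]
        calc (h - x) * (1 - x / h) ^ ((h - x) / x) ≤ (h - x) * W :=
              mul_le_mul_of_nonneg_left hWb hhx0.le
          _ = G := by rw [hhx]; field_simp
      · have hHe : H = g := by rw [hHd]; exact max_eq_left hgh
        rw [hHe]
        have hpos : 0 < 1 - x / g := by
          rw [sub_pos, div_lt_one hg0]; linarith
        have e1 : (g - x) * (1 - x / g) ^ ((g - x) / x) = g * (1 - x / g) ^ (g / x) := by
          have e2 : g / x = (g - x) / x + 1 := by field_simp; ring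
          rw [e2, Real.rpow_add hpos, Real.rpow_one]
          have e3 : g * (1 - x / g) = g - x := by field_simp
          rw [← e3]; ring
        rw [e1]; exact j1
    have hrq := h4 (H / x) (by rw [le_div_iff₀ hx]; linarith)
    rw [one_div_div] at hrq
    have e4 : H / x - 1 = (H - x) / x := by field_simp
    rw [e4] at hrq
    have e6 : (3 : ℝ) - 2 / (H / x) = 3 - 2 * x / H := by field_simp
    rw [e6] at hrq
    have hUG : G / H ≤ U := by
      rw [hUg]; exact div_le_div_of_nonneg_left hG.le hg0 hHg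
    have hWG : G / (H - x) ≤ W := by
      rw [hWh]; exact div_le_div_of_nonneg_left hG.le hhx0 (by linarith)
    have hfin : 1 ≤ 2 * (G / H) + G / (H - x) := by
      have e7 : 2 * (G / H) + G / (H - x) = G / (H - x) * (3 - 2 * x / H) := by
        field_simp; ring
      rw [e7]
      have e8 : 0 ≤ 3 - 2 * x / H := by
        have : 2 * x / H ≤ 1 := by rw [div_le_one hH0]; linarith
        linarith
      have e9 : (1 - x / H) ^ ((H - x) / x) ≤ G / (H - x) := by
        rw [le_div_iff₀ hHx, mul_comm]; exact hcl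
      exact hrq.trans (mul_le_mul_of_nonneg_right e9 e8)
    linarith

theorem t2s (h1 : S_BAS) (h2 : S_IND) (h3 : S_GW) (h4 : S_RQ) (h5 : S_LANT) : S_T2S := by
  intro r hr a b q hT
  obtain ⟨x, hxd⟩ : ∃ x : ℝ, x = 1 / ((r : ℝ) + 1) := ⟨_, rfl⟩
  rw [← hxd] at hT
  have hr1 : (0 : ℝ) < (r : ℝ) + 1 := by positivity
  have hx : 0 < x := by rw [hxd]; positivity
  have hrx : ((r : ℝ) + 1) * x = 1 := by rw [hxd]; field_simp
  -- sums
  have hbq : ∀ i, b i * q i = x - a i := fun i => by have := hT.mean i; linarith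
  have hc : 1 - ∑ i, a i = ∑ i, b i * q i := by
    rw [Finset.sum_congr rfl (fun i _ => hbq i), Finset.sum_sub_distrib, Finset.sum_const,
      Finset.card_univ, Fintype.card_fin, nsmul_eq_mul]
    push_cast
    rw [hrx]
  have hc' : 1 - ∑ i : Fin r, a i.castSucc = x + ∑ i : Fin r, b i.castSucc * q i.castSucc := by
    rw [Finset.sum_congr rfl (fun (i : Fin r) _ => hbq i.castSucc), Finset.sum_sub_distrib,
      Finset.sum_const, Finset.card_univ, Fintype.card_fin, nsmul_eq_mul]
    linarith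
  have hbq0 : ∀ i, 0 ≤ b i * q i := fun i => mul_nonneg (hT.b0 i).le (hT.q0 i)
  have hS' : 0 ≤ ∑ i : Fin r, b i.castSucc * q i.castSucc := Finset.sum_nonneg (fun i _ => hbq0 _)
  have hS : 0 ≤ ∑ i, b i * q i := Finset.sum_nonneg (fun i _ => hbq0 _)
  have hc'0 : 0 < 1 - ∑ i : Fin r, a i.castSucc := by rw [hc']; linarith
  obtain ⟨W, hWd⟩ : ∃ W, W = PP (fun i : Fin r => a i.castSucc) (fun i : Fin r => b i.castSucc)
    (fun i : Fin r => q i.castSucc) := ⟨_, rfl⟩
  obtain ⟨U, hUd⟩ : ∃ U, U = PP a b q := ⟨_, rfl⟩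
  obtain ⟨G', hGd'⟩ : ∃ G', G' = PG (fun i : Fin r => b i.castSucc) (fun i : Fin r => q i.castSucc)
    (1 - ∑ i : Fin r, a i.castSucc) univ := ⟨_, rfl⟩
  obtain ⟨G, hGd⟩ : ∃ G, G = PG b q (1 - ∑ i, a i) univ := ⟨_, rfl⟩
  have hgw := h3 r x hx a b q hT
  rw [← hGd', ← hGd, ← hWd] at hgw
  obtain ⟨w1, w2, w3, w4, w5⟩ := h1 (Fin r) (fun i : Fin r => b i.castSucc)
    (fun i : Fin r => q i.castSucc) (1 - ∑ i : Fin r, a i.castSucc) univ hc'0
    (fun i _ => ⟨hT.b0 _, hT.q0 _, hT.q1 _⟩)
  have hWd2 : W = PU (fun i : Fin r => b i.castSucc) (fun i : Fin r => q i.castSucc)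
    (1 - ∑ i : Fin r, a i.castSucc) univ := by rw [hWd]; rfl
  rw [← hWd2] at w1 w2 w3
  rw [← hGd'] at w3 w4 w5
  have hGx : x ≤ G' := by
    have : 1 - ∑ i : Fin r, a i.castSucc - ∑ i : Fin r, b i.castSucc * q i.castSucc = x := by
      rw [hc']; ring
    rw [this] at w4; exact w4
  rw [← hWd, ← hUd]
  rcases hS.eq_or_lt with h0 | h0
  · -- degenerate case
    have hz : ∀ i, b i * q i = 0 := fun i =>
      (Finset.sum_eq_zero_iff_of_nonneg (fun i _ => hbq0 i)).1 h0.symm i (mem_univ _)
    have hz' : ∑ i : Fin r, b i.castSucc * q i.castSucc = 0 := Finset.sum_eq_zero (fun i _ => hz _)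
    rw [hc', hz', add_zero] at w3
    have hW1 : 1 ≤ W := by
      have : x * 1 ≤ x * W := by linarith
      exact le_of_mul_le_mul_left this hx
    have hU0 : 0 ≤ U := by
      rw [hUd]
      unfold PP PU
      refine Finset.sum_nonneg (fun ω _ => ?_)
      split_ifs
      · unfold Wt
        exact mul_nonneg (Finset.prod_nonneg (fun i _ => hT.q0 i))
          (Finset.prod_nonneg (fun i _ => by have := hT.q1 i; linarith))
      · exact le_rfl
    linarith
  · have hc0 : 0 < 1 - ∑ i, a i := by rw [hc]; exact h0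
    obtain ⟨u1, u2, u3, u4, u5⟩ := h1 (Fin (r + 1)) b q (1 - ∑ i, a i) univ hc0
      (fun i _ => ⟨hT.b0 _, hT.q0 _, hT.q1 _⟩)
    have hUd2 : U = PU b q (1 - ∑ i, a i) univ := by rw [hUd]; rfl
    rw [← hUd2] at u1 u2 u3
    rw [← hGd] at u3 u4 u5
    refine scal h4 h5 hx u1 w1 w2 u5 hGx hgw ?_ ?_
    · intro hg
      have := h2 (Fin (r + 1)) b q (1 - ∑ i, a i) x (G / U) univ hc0
        (fun i _ => ⟨hT.b0 _, hT.q0 _, hT.q1 _⟩)
        (fun i _ => by rw [hbq]; have := hT.a0 i; linarith) hx (by linarith)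
        (by rw [← hUd2, ← hGd, div_mul_cancel₀ _ u1.ne']) (by rw [hc, sub_self]; positivity)
      rw [← hGd, hc, sub_self, sub_zero] at this
      exact this
    · have hg'x : x ≤ G' / W := by
        rw [le_div_iff₀ w1]
        nlinarith
      have := h2 (Fin r) (fun i : Fin r => b i.castSucc) (fun i : Fin r => q i.castSucc)
        (1 - ∑ i : Fin r, a i.castSucc) x (G' / W) univ hc'0
        (fun i _ => ⟨hT.b0 _, hT.q0 _, hT.q1 _⟩)
        (fun i _ => by show b i.castSucc * q i.castSucc ≤ x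
                       rw [hbq]; have := hT.a0 i.castSucc; linarith) hx hg'x
        (by rw [← hWd2, ← hGd', div_mul_cancel₀ _ w1.ne'])
        (by rw [hc', add_sub_cancel_right]; exact hg'x)
      rw [← hGd', hc', add_sub_cancel_right] at this
      exact this

end Pool.Agent.W348.IR
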